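import Mathlib

/-!
# MP_890ea4_an: distributional chaos does not imply `m_n`-distributional chaos

We construct a bounded operator `T` on `ℓ¹` (real or complex) with a dense linear subspace of
vectors whose orbits tend to zero (they are even finite), which is distributionally chaotic, but
not `n³`-distributionally chaotic.

`T` is a direct sum of truncated multiples of the backward shift: the block number `l` has length
`s l ^ 2 + 1` and the factor `1 + 1 / s l`, where `s l = 2 ^ 3 ^ l`. For every `x` the orbit is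
small at all times in the windows `(s l ^ 2, s (l + 1)]`, and these windows contain at least
`n / 2` elements of `[1, n³]` for all large `n`.
-/

open Filter Topology
open scoped ENNReal

namespace Pool.Agent.Results.MP_890ea4_an.SlowBlocks

/-- The class `R`: increasing sequences `m 1 < m 2 < ...` in `[1, ∞)` with
`liminf m n / n > 0` (the value at the index `0` is not used). -/
def ClassR (m : ℕ → ℝ) : Prop :=
  (∀ n, 1 ≤ n → 1 ≤ m n) ∧ (∀ n k, 1 ≤ n → n < k → m n < m k) ∧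
    0 < liminf (fun n : ℕ => ENNReal.ofReal (m n) / (n : ℝ≥0∞)) atTop

/-- The lower `m n`-density `liminf |A ∩ [1, m n]| / n` of a set `A` of positive integers. -/
noncomputable def lowerDens (m : ℕ → ℝ) (A : Set ℕ) : ℝ≥0∞ :=
  liminf (fun n : ℕ =>
    ((A ∩ {j : ℕ | 1 ≤ j ∧ (j : ℝ) ≤ m n}).ncard : ℝ≥0∞) / (n : ℝ≥0∞)) atTop

/-- `m n`-distributional chaos of a self-map of a metric space. -/
def MnChaotic {X : Type*} [MetricSpace X] (m : ℕ → ℝ) (T : X → X) : Prop :=
  ∃ S : Set X, ¬ S.Countable ∧ ∃ σ : ℝ, 0 < σ ∧ ∀ ε : ℝ, 0 < ε → ∀ x ∈ S, ∀ y ∈ S, x ≠ y →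
    lowerDens m {j : ℕ | dist (T^[j] x) (T^[j] y) < σ} = 0 ∧
    lowerDens m {j : ℕ | ε ≤ dist (T^[j] x) (T^[j] y)} = 0

/-- `T` has a dense linear subspace of vectors whose orbits tend to zero. -/
def DenseNullOrbits {𝕜 X : Type*} [NormedField 𝕜] [NormedAddCommGroup X] [NormedSpace 𝕜 X]
    (T : X →L[𝕜] X) : Prop :=
  ∃ X₀ : Submodule 𝕜 X, Dense (X₀ : Set X) ∧ ∀ x ∈ X₀, Tendsto (fun n => T^[n] x) atTop (𝓝 0)

/-- The space `ℓ¹` over `ℕ × ℕ`. -/
abbrev L1 (𝕜 : Type) [RCLike 𝕜] := lp (fun _ : ℕ × ℕ => 𝕜) 1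

section basic

variable {𝕜 : Type} [RCLike 𝕜]

lemma mem1 (f : ℕ × ℕ → 𝕜) : Memℓp f 1 ↔ Summable fun i => ‖f i‖ := by
  have h := memℓp_gen_iff (E := fun _ : ℕ × ℕ => 𝕜) (p := 1) (f := f) (by simp)
  simpa using h

lemma norm1 (f : L1 𝕜) : ‖f‖ = ∑' i, ‖f i‖ := by
  have h := lp.norm_eq_tsum_rpow (E := fun _ : ℕ × ℕ => 𝕜) (p := 1) (by simp) f
  simpa using h

lemma summ (f : L1 𝕜) : Summable fun i => ‖f i‖ := (mem1 _).1 (lp.memℓp f)

/-- the reindexing `(l, k) ↦ (l, k + j)` -/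
def up (j : ℕ) (p : ℕ × ℕ) : ℕ × ℕ := (p.1, p.2 + j)

lemma up_inj (j : ℕ) : Function.Injective (up j) := by
  rintro ⟨a, b⟩ ⟨c, d⟩ h
  simp only [up, Prod.mk.injEq] at h
  obtain ⟨h1, h2⟩ := h
  ext <;> simp <;> omega

lemma summ_up (f : L1 𝕜) (j : ℕ) : Summable fun p => ‖f (up j p)‖ :=
  (summ f).comp_injective (up_inj j)

/-- lengths `s l = 2 ^ 3 ^ l` -/
def s (l : ℕ) : ℕ := 2 ^ 3 ^ l

lemma s_succ (l : ℕ) : s (l + 1) = s l ^ 3 := by
  unfold s; rw [← pow_mul, pow_succ]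

lemma s_pos (l : ℕ) : 0 < s l := by unfold s; positivity

lemma s_mono {a b : ℕ} (h : a ≤ b) : s a ≤ s b := by
  unfold s
  exact Nat.pow_le_pow_right (by norm_num) (Nat.pow_le_pow_right (by norm_num) h)

lemma two_le_s (l : ℕ) : 2 ≤ s l := by
  unfold s
  calc 2 = 2 ^ 1 := by norm_num
    _ ≤ 2 ^ 3 ^ l := Nat.pow_le_pow_right (by norm_num) (Nat.one_le_pow _ _ (by norm_num))

lemma lt_s (l : ℕ) : l < s l := by
  unfold s
  calc l < 3 ^ l := Nat.lt_pow_self (by norm_num)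
    _ < 2 ^ 3 ^ l := Nat.lt_pow_self (by norm_num)

/-- the weight of the `j`-th power at the position `p` -/
noncomputable def W (j : ℕ) (p : ℕ × ℕ) : ℝ :=
  if p.2 + j ≤ s p.1 ^ 2 then (1 + 1 / (s p.1 : ℝ)) ^ j else 0

lemma W_nonneg (j : ℕ) (p : ℕ × ℕ) : 0 ≤ W j p := by
  unfold W; split_ifs <;> positivity

lemma W_one_le (p : ℕ × ℕ) : W 1 p ≤ 2 := by
  unfold W
  split_ifs
  · have h : (1 : ℝ) ≤ s p.1 := by exact_mod_cast s_pos p.1
    have : 1 / (s p.1 : ℝ) ≤ 1 := by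
      rw [div_le_one (by linarith)]; exact h
    simp only [pow_one]; linarith
  · norm_num

lemma W_succ (j : ℕ) (p : ℕ × ℕ) : W 1 p * W j (up 1 p) = W (j + 1) p := by
  unfold W up
  simp only
  by_cases h : p.2 + (j + 1) ≤ s p.1 ^ 2
  · rw [if_pos h, if_pos (by omega), if_pos (by omega)]
    ring
  · rw [if_neg h, if_neg (c := p.2 + 1 + j ≤ s p.1 ^ 2) (by omega), mul_zero]

/-- The operator: `(T x)(l, k) = (1 + 1 / s l) x (l, k + 1)` if `k + 1 ≤ s l ^ 2`, and `0`
otherwise. -/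
noncomputable def opT (𝕜 : Type) [RCLike 𝕜] : L1 𝕜 →L[𝕜] L1 𝕜 :=
  LinearMap.mkContinuous
    { toFun := fun x => ⟨fun p => ((W 1 p : ℝ) : 𝕜) * x (up 1 p), by
        show Memℓp _ 1
        rw [mem1]
        refine Summable.of_nonneg_of_le (fun _ => norm_nonneg _) (fun p => ?_)
          ((summ_up x 1).mul_left 2)
        rw [norm_mul, RCLike.norm_ofReal, abs_of_nonneg (W_nonneg 1 p)]
        exact mul_le_mul_of_nonneg_right (W_one_le p) (norm_nonneg _)⟩
      map_add' := by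
        intro x y; ext p
        show ((W 1 p : ℝ) : 𝕜) * (x + y) (up 1 p) =
          ((W 1 p : ℝ) : 𝕜) * x (up 1 p) + ((W 1 p : ℝ) : 𝕜) * y (up 1 p)
        rw [lp.coeFn_add, Pi.add_apply, mul_add]
      map_smul' := by
        intro c x; ext p
        show ((W 1 p : ℝ) : 𝕜) * (c • x) (up 1 p) = c * (((W 1 p : ℝ) : 𝕜) * x (up 1 p))
        rw [lp.coeFn_smul, Pi.smul_apply, smul_eq_mul]; ring } 2 (by
    intro x
    rw [norm1, norm1]
    calc ∑' p, ‖((W 1 p : ℝ) : 𝕜) * x (up 1 p)‖ ≤ ∑' p, 2 * ‖x (up 1 p)‖ := by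
          have key : ∀ p, ‖((W 1 p : ℝ) : 𝕜) * x (up 1 p)‖ ≤ 2 * ‖x (up 1 p)‖ := fun p => by
            rw [norm_mul, RCLike.norm_ofReal, abs_of_nonneg (W_nonneg 1 p)]
            exact mul_le_mul_of_nonneg_right (W_one_le p) (norm_nonneg _)
          exact Summable.tsum_le_tsum key
            (Summable.of_nonneg_of_le (fun _ => norm_nonneg _) key ((summ_up x 1).mul_left 2))
            ((summ_up x 1).mul_left 2)
      _ = 2 * ∑' p, ‖x (up 1 p)‖ := tsum_mul_left
      _ ≤ 2 * ∑' p, ‖x p‖ := by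
          refine mul_le_mul_of_nonneg_left ?_ (by norm_num)
          exact tsum_comp_le_tsum_of_inj (summ x) (fun _ => norm_nonneg _) (up_inj 1))

lemma opT_apply (x : L1 𝕜) (p : ℕ × ℕ) :
    opT 𝕜 x p = ((W 1 p : ℝ) : 𝕜) * x (up 1 p) := rfl

lemma opT_iter (j : ℕ) (x : L1 𝕜) (p : ℕ × ℕ) :
    ((opT 𝕜)^[j + 1] x) p = ((W (j + 1) p : ℝ) : 𝕜) * x (up (j + 1) p) := by
  induction j generalizing p with
  | zero => simp [opT_apply]
  | succ j ih =>
    rw [Function.iterate_succ_apply', opT_apply, ih (up 1 p), ← W_succ (j + 1)]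
    have : up (j + 1) (up 1 p) = up (j + 1 + 1) p := by
      unfold up; ext <;> simp; omega
    rw [this]; push_cast; ring

lemma one_add_pow_le {l j : ℕ} (h : j ≤ s l) : (1 + 1 / (s l : ℝ)) ^ j ≤ 3 := by
  have hs : (0 : ℝ) < s l := by exact_mod_cast s_pos l
  calc (1 + 1 / (s l : ℝ)) ^ j ≤ (Real.exp (1 / s l)) ^ j := by
        gcongr
        have := Real.add_one_le_exp (1 / (s l : ℝ)); linarith
    _ = Real.exp (j * (1 / s l)) := (Real.exp_nat_mul _ _).symm
    _ ≤ Real.exp 1 := by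
        apply Real.exp_le_exp.2
        rw [mul_one_div, div_le_one hs]; exact_mod_cast h
    _ ≤ 3 := by have := Real.exp_one_lt_d9; linarith

/-- the mass of `x` on the blocks with index at least `l` -/
noncomputable def tail (x : L1 𝕜) (l : ℕ) : ℝ :=
  ∑' p : ℕ × ℕ, if l ≤ p.1 then ‖x p‖ else 0

lemma tail_summ (x : L1 𝕜) (l : ℕ) :
    Summable fun p : ℕ × ℕ => if l ≤ p.1 then ‖x p‖ else 0 := by
  refine Summable.of_nonneg_of_le (fun p => ?_) (fun p => ?_) (summ x)
  · split_ifs <;> positivity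
  · split_ifs
    · exact le_rfl
    · exact norm_nonneg _

lemma tail_tendsto (x : L1 𝕜) : Tendsto (tail x) atTop (𝓝 0) := by
  unfold tail
  have h := tendsto_tsum_of_dominated_convergence (𝓕 := atTop)
    (f := fun (l : ℕ) (p : ℕ × ℕ) => if l ≤ p.1 then ‖x p‖ else 0) (g := fun _ => (0 : ℝ))
    (bound := fun p => ‖x p‖) (summ x) (fun p => by
      refine tendsto_const_nhds.congr' ?_
      filter_upwards [eventually_gt_atTop p.1] with l hl
      rw [if_neg (by omega)]) (Eventually.of_forall fun l p => by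
      split_ifs <;> simp)
  simpa using h

/-- The orbit of `x` is small in the window `(s l ^ 2, s (l + 1)]`. -/
lemma small (x : L1 𝕜) {l j : ℕ} (h1 : s l ^ 2 < j) (h2 : j ≤ s (l + 1)) :
    ‖(opT 𝕜)^[j] x‖ ≤ 3 * tail x (l + 1) := by
  obtain ⟨i, rfl⟩ : ∃ i, j = i + 1 := ⟨j - 1, by omega⟩
  have key : ∀ p : ℕ × ℕ, ‖((opT 𝕜)^[i + 1] x) p‖ ≤
      3 * (if l + 1 ≤ (up (i + 1) p).1 then ‖x (up (i + 1) p)‖ else 0) := by
    intro p
    rw [opT_iter, norm_mul, RCLike.norm_ofReal, abs_of_nonneg (W_nonneg _ _)]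
    have hup : (up (i + 1) p).1 = p.1 := rfl
    rw [hup]
    by_cases hl : l + 1 ≤ p.1
    · rw [if_pos hl]
      refine mul_le_mul_of_nonneg_right ?_ (norm_nonneg _)
      unfold W
      split_ifs
      · exact one_add_pow_le (h2.trans (s_mono hl))
      · norm_num
    · rw [if_neg hl]
      have : W (i + 1) p = 0 := by
        unfold W
        rw [if_neg]
        have h3 : s p.1 ≤ s l := s_mono (by omega)
        have h4 : s p.1 ^ 2 ≤ s l ^ 2 := Nat.pow_le_pow_left h3 2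
        omega
      rw [this]; simp
  have hs := (tail_summ x (l + 1)).comp_injective (up_inj (i + 1))
  rw [norm1]
  calc ∑' p, ‖((opT 𝕜)^[i + 1] x) p‖
      ≤ ∑' p, 3 * (if l + 1 ≤ (up (i + 1) p).1 then ‖x (up (i + 1) p)‖ else 0) :=
        Summable.tsum_le_tsum key (Summable.of_nonneg_of_le (fun _ => norm_nonneg _) key
          (hs.mul_left 3)) (hs.mul_left 3)
    _ = 3 * ∑' p, (if l + 1 ≤ (up (i + 1) p).1 then ‖x (up (i + 1) p)‖ else 0) := tsum_mul_left
    _ ≤ 3 * tail x (l + 1) := by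
        refine mul_le_mul_of_nonneg_left ?_ (by norm_num)
        exact tsum_comp_le_tsum_of_inj (tail_summ x (l + 1))
          (fun p => by split_ifs <;> simp) (up_inj (i + 1))

/-- The special vector with the entry `1 / (l + 1) ^ 2` at the end of the block `l`. -/
noncomputable def star (𝕜 : Type) [RCLike 𝕜] : L1 𝕜 :=
  ⟨fun p => if p.2 = s p.1 ^ 2 then (((1 / ((p.1 : ℝ) + 1) ^ 2 : ℝ)) : 𝕜) else 0, by
    show Memℓp _ 1
    rw [mem1]
    have hinj : Function.Injective (fun l : ℕ => (l, s l ^ 2)) := fun a b h => by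
      simp only [Prod.mk.injEq] at h; exact h.1
    rw [← hinj.summable_iff]
    · have h1 : Summable fun l : ℕ => 1 / ((l : ℝ) + 1) ^ 2 := by
        have h := (summable_nat_add_iff 1).2 (Real.summable_one_div_nat_pow.2 (by norm_num :
          1 < 2))
        refine h.congr fun l => ?_
        push_cast; rfl
      refine h1.congr fun l => ?_
      simp only [Function.comp, if_true]
      rw [RCLike.norm_ofReal, abs_of_nonneg (by positivity)]
    · intro p hp
      have : p.2 ≠ s p.1 ^ 2 := by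
        intro h
        exact hp ⟨p.1, by ext <;> simp [h]⟩
      simp [this]⟩

lemma star_apply (l : ℕ) : star 𝕜 (l, s l ^ 2) = (((1 / ((l : ℝ) + 1) ^ 2 : ℝ)) : 𝕜) := by
  show (if s l ^ 2 = s l ^ 2 then _ else _) = _
  rw [if_pos rfl]

/-- The orbit of the special vector is large in `[(l + 1) ^ 3 s l, s l ^ 2]`. -/
lemma large {l j : ℕ} (h0 : 1 ≤ j) (h1 : (l + 1) ^ 3 * s l ≤ j) (h2 : j ≤ s l ^ 2) :
    (l : ℝ) + 1 ≤ ‖(opT 𝕜)^[j] (star 𝕜)‖ := by
  obtain ⟨i, rfl⟩ : ∃ i, j = i + 1 := ⟨j - 1, by omega⟩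
  have hs : (0 : ℝ) < s l := by exact_mod_cast s_pos l
  have h := lp.norm_apply_le_norm (p := 1) (by norm_num) ((opT 𝕜)^[i + 1] (star 𝕜))
    (l, s l ^ 2 - (i + 1))
  refine le_trans ?_ h
  rw [opT_iter]
  have hup : up (i + 1) (l, s l ^ 2 - (i + 1)) = (l, s l ^ 2) := by
    unfold up; ext <;> simp; omega
  rw [hup, star_apply, norm_mul, RCLike.norm_ofReal, RCLike.norm_ofReal,
    abs_of_nonneg (W_nonneg _ _), abs_of_nonneg (by positivity)]
  unfold W
  rw [if_pos (by simp only; omega)]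
  have hb : 1 + ((i + 1 : ℕ) : ℝ) * (1 / s l) ≤ (1 + 1 / (s l : ℝ)) ^ (i + 1) :=
    one_add_mul_le_pow (by have : (0:ℝ) ≤ 1 / s l := by positivity
                           linarith) (i + 1)
  have h3 : ((l : ℝ) + 1) ^ 3 ≤ ((i + 1 : ℕ) : ℝ) * (1 / s l) := by
    rw [mul_one_div, le_div_iff₀ hs]; exact_mod_cast h1
  have h4 : ((l : ℝ) + 1) ^ 3 ≤ (1 + 1 / (s l : ℝ)) ^ (i + 1) := by linarith
  calc (l : ℝ) + 1 = ((l : ℝ) + 1) ^ 3 * (1 / ((l : ℝ) + 1) ^ 2) := by
        field_simp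
    _ ≤ _ := mul_le_mul_of_nonneg_right h4 (by positivity)

lemma iter_sub (j : ℕ) (x y : L1 𝕜) :
    dist ((opT 𝕜)^[j] x) ((opT 𝕜)^[j] y) = ‖(opT 𝕜)^[j] (x - y)‖ := by
  rw [← FunLike.coe_pow_eq_iterate, map_sub, dist_eq_norm]

lemma lowerDens_eq_zero {A : Set ℕ}
    (h : ∀ c : ℝ, 0 < c → ∀ M : ℕ, ∃ n : ℕ, M ≤ n ∧ 1 ≤ n ∧
      ((A ∩ {j : ℕ | 1 ≤ j ∧ (j : ℝ) ≤ (n : ℝ)}).ncard : ℝ) ≤ c * n) :
    lowerDens (fun n => (n : ℝ)) A = 0 := by
  by_contra hne
  obtain ⟨c, hc0, hc⟩ : ∃ c : ℝ, 0 < c ∧ ENNReal.ofReal c < lowerDens (fun n => (n : ℝ)) A := by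
    obtain ⟨c, hc0, hc⟩ := ENNReal.lt_iff_exists_nnreal_btwn.1 (pos_iff_ne_zero.2 hne)
    refine ⟨c, ?_, ?_⟩
    · exact_mod_cast hc0
    · simpa using hc
  have hev := Filter.eventually_lt_of_lt_liminf hc
  obtain ⟨M, hM⟩ := eventually_atTop.1 hev
  obtain ⟨n, hn, hn1, hcard⟩ := h c hc0 M
  have h1 := hM n hn
  rw [ENNReal.lt_div_iff_mul_lt (Or.inl (by positivity)) (Or.inl (by simp))] at h1
  have h2 : ENNReal.ofReal c * (n : ℝ≥0∞) = ENNReal.ofReal (c * n) := by
    rw [ENNReal.ofReal_mul hc0.le, ENNReal.ofReal_natCast]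
  have h3 : ((A ∩ {j : ℕ | 1 ≤ j ∧ (j : ℝ) ≤ (n : ℝ)}).ncard : ℝ≥0∞) =
      ENNReal.ofReal ((A ∩ {j : ℕ | 1 ≤ j ∧ (j : ℝ) ≤ (n : ℝ)}).ncard : ℝ) := by
    rw [ENNReal.ofReal_natCast]
  rw [h2, h3] at h1
  exact absurd (ENNReal.ofReal_le_ofReal hcard) (not_le.2 h1)

lemma two_pow_le_s (l : ℕ) : 2 ^ (l + 1) ≤ s l := by
  unfold s
  refine Nat.pow_le_pow_right (by norm_num) ?_
  have : l < 3 ^ l := Nat.lt_pow_self (by norm_num)
  omega

lemma ratio_small {c : ℝ} (hc : 0 < c) :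
    ∀ᶠ l : ℕ in atTop, ((l : ℝ) + 1) ^ 3 ≤ c * s l := by
  have h := (tendsto_pow_const_div_const_pow_of_one_lt 3 (by norm_num : (1 : ℝ) < 2)).comp
    (tendsto_add_atTop_nat 1)
  filter_upwards [h.eventually (gt_mem_nhds hc)] with l hl
  simp only [Function.comp] at hl
  have hp : (0 : ℝ) < 2 ^ (l + 1) := by positivity
  rw [div_lt_iff₀ hp] at hl
  have h1 : ((2 : ℝ)) ^ (l + 1) ≤ s l := by exact_mod_cast two_pow_le_s l
  push_cast at hl
  calc ((l : ℝ) + 1) ^ 3 ≤ c * 2 ^ (l + 1) := hl.le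
    _ ≤ c * s l := mul_le_mul_of_nonneg_left h1 hc.le

lemma s_tendsto : Tendsto s atTop atTop :=
  tendsto_atTop_mono (fun l => (lt_s l).le) tendsto_id

/-- the multiples of the special vector show that `T` is distributionally chaotic -/
lemma chaotic : MnChaotic (fun n => (n : ℝ)) (opT 𝕜) := by
  have hstar : star 𝕜 ≠ 0 := by
    intro h
    have h1 := star_apply (𝕜 := 𝕜) 0
    rw [h] at h1
    simp at h1
  refine ⟨Set.range fun t : ℝ => (t : 𝕜) • star 𝕜, ?_, 1, one_pos, ?_⟩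
  · intro hc
    have hinj : Function.Injective fun t : ℝ => (t : 𝕜) • star 𝕜 := by
      intro a b hab
      have := smul_left_injective 𝕜 hstar hab
      exact_mod_cast this
    have h1 : (Set.univ : Set ℝ).Countable := by
      have h2 := hc.preimage_of_injOn (f := fun t : ℝ => (t : 𝕜) • star 𝕜) hinj.injOn
      rwa [Set.preimage_range] at h2
    exact Cardinal.not_countable_real h1
  · rintro ε hε _ ⟨a, rfl⟩ _ ⟨b, rfl⟩ hab
    have hab' : a ≠ b := fun h => hab (by rw [h])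
    have hd : 0 < |a - b| := abs_pos.2 (sub_ne_zero.2 hab')
    have hdist : ∀ j, dist ((opT 𝕜)^[j] ((a : 𝕜) • star 𝕜)) ((opT 𝕜)^[j] ((b : 𝕜) • star 𝕜)) =
        |a - b| * ‖(opT 𝕜)^[j] (star 𝕜)‖ := by
      intro j
      rw [iter_sub, ← sub_smul, ← FunLike.coe_pow_eq_iterate, map_smul, norm_smul,
        ← RCLike.ofReal_sub, RCLike.norm_ofReal]
    simp only [hdist]
    constructor
    · apply lowerDens_eq_zero
      intro c hc M
      obtain ⟨l, hl1, hl2, hl3⟩ := ((ratio_small hc).and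
        ((tendsto_natCast_atTop_atTop (R := ℝ)).eventually_ge_atTop (1 / |a - b|) |>.and
        (s_tendsto.eventually_ge_atTop M))).exists
      refine ⟨s l ^ 2, ?_, ?_, ?_⟩
      · nlinarith [s_pos l]
      · exact Nat.one_le_pow _ _ (s_pos l)
      · have hsub : ({j : ℕ | |a - b| * ‖(opT 𝕜)^[j] (star 𝕜)‖ < 1} ∩
            {j : ℕ | 1 ≤ j ∧ (j : ℝ) ≤ ((s l ^ 2 : ℕ) : ℝ)}) ⊆
            (Finset.range ((l + 1) ^ 3 * s l) : Set ℕ) := by
          rintro j ⟨hj1, hj2, hj3⟩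
          simp only [Finset.coe_range, Set.mem_Iio]
          by_contra hcon
          push Not at hcon
          have hL := large (𝕜 := 𝕜) hj2 hcon (by exact_mod_cast hj3)
          have h5 : 1 ≤ |a - b| * ((l : ℝ) + 1) := by
            rw [div_le_iff₀ hd] at hl2
            nlinarith
          have h6 : |a - b| * ‖(opT 𝕜)^[j] (star 𝕜)‖ < 1 := hj1
          nlinarith [mul_le_mul_of_nonneg_left hL hd.le]
        have hcard := Set.ncard_le_ncard hsub (Finset.finite_toSet _)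
        rw [Set.ncard_coe_finset, Finset.card_range] at hcard
        have hcard' : (({j : ℕ | |a - b| * ‖(opT 𝕜)^[j] (star 𝕜)‖ < 1} ∩
            {j : ℕ | 1 ≤ j ∧ (j : ℝ) ≤ ((s l ^ 2 : ℕ) : ℝ)}).ncard : ℝ) ≤
            ((l : ℝ) + 1) ^ 3 * s l := by exact_mod_cast hcard
        refine hcard'.trans ?_
        have hs : (0 : ℝ) < s l := by exact_mod_cast s_pos l
        push_cast
        nlinarith
    · apply lowerDens_eq_zero
      intro c hc M
      have ht := (tail_tendsto (star 𝕜)).comp (tendsto_add_atTop_nat 1)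
      have hpos : 0 < ε / (3 * |a - b|) := by positivity
      obtain ⟨l, hl1, hl2, hl3⟩ := ((ratio_small hc).and
        ((ht.eventually (gt_mem_nhds hpos)).and
        (s_tendsto.eventually_ge_atTop M))).exists
      have hs : (0 : ℝ) < s l := by exact_mod_cast s_pos l
      refine ⟨s (l + 1), hl3.trans (s_mono (by omega)), s_pos _, ?_⟩
      have hsub : ({j : ℕ | ε ≤ |a - b| * ‖(opT 𝕜)^[j] (star 𝕜)‖} ∩
            {j : ℕ | 1 ≤ j ∧ (j : ℝ) ≤ ((s (l + 1) : ℕ) : ℝ)}) ⊆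
            (Finset.Icc 1 (s l ^ 2) : Set ℕ) := by
        rintro j ⟨hj1, hj2, hj3⟩
        simp only [Finset.coe_Icc, Set.mem_Icc]
        refine ⟨hj2, ?_⟩
        by_contra hcon
        push Not at hcon
        have hL := small (star 𝕜) hcon (by exact_mod_cast hj3)
        have h6 : ε ≤ |a - b| * ‖(opT 𝕜)^[j] (star 𝕜)‖ := hj1
        simp only [Function.comp] at hl2
        rw [lt_div_iff₀ (by positivity)] at hl2
        nlinarith [mul_le_mul_of_nonneg_left hL hd.le]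
      have hcard := Set.ncard_le_ncard hsub (Finset.finite_toSet _)
      rw [Set.ncard_coe_finset, Nat.card_Icc] at hcard
      have hcard' : (({j : ℕ | ε ≤ |a - b| * ‖(opT 𝕜)^[j] (star 𝕜)‖} ∩
            {j : ℕ | 1 ≤ j ∧ (j : ℝ) ≤ ((s (l + 1) : ℕ) : ℝ)}).ncard : ℝ) ≤
            (s l : ℝ) ^ 2 := by
        have : s l ^ 2 + 1 - 1 = s l ^ 2 := by omega
        rw [this] at hcard
        exact_mod_cast hcard
      refine hcard'.trans ?_
      rw [s_succ]
      push_cast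
      have h7 : (1 : ℝ) ≤ ((l : ℝ) + 1) ^ 3 := by
        apply one_le_pow₀; linarith [(Nat.cast_nonneg l : (0 : ℝ) ≤ l)]
      nlinarith [sq_nonneg (s l : ℝ)]

/-- for every uncountable set the difference of two points is small on long windows -/
lemma not_chaotic : ¬ MnChaotic (fun n => (n : ℝ) ^ 3) (opT 𝕜) := by
  rintro ⟨S, hS, σ, hσ, h⟩
  obtain ⟨x, hx, y, hy, hxy⟩ : ∃ x ∈ S, ∃ y ∈ S, x ≠ y := by
    by_contra hcon
    push Not at hcon
    exact hS (Set.Subsingleton.countable fun a ha b hb => hcon a ha b hb)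
  have h0 := (h 1 one_pos x hx y hy hxy).1
  have ht := (tail_tendsto (x - y)).comp (tendsto_add_atTop_nat 1)
  obtain ⟨L, hL⟩ := eventually_atTop.1 (ht.eventually (gt_mem_nhds (by positivity : 0 < σ / 3)))
  have hge : (2 : ℝ≥0∞)⁻¹ ≤ lowerDens (fun n => (n : ℝ) ^ 3)
      {j : ℕ | dist ((opT 𝕜)^[j] x) ((opT 𝕜)^[j] y) < σ} := by
    unfold lowerDens
    refine Filter.le_liminf_of_le (by isBoundedDefault) ?_
    filter_upwards [eventually_gt_atTop (s L)] with n hn
    obtain ⟨l, hlL, hl1, hl2⟩ : ∃ l, L ≤ l ∧ s l < n ∧ n ≤ s (l + 1) := by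
      have hex : ∃ k, n ≤ s (k + 1) := ⟨n, ((lt_s (n + 1)).le.trans' (by omega))⟩
      classical
      refine ⟨Nat.find hex, ?_, ?_, Nat.find_spec hex⟩
      · by_contra hcon
        push Not at hcon
        have h1 := Nat.find_spec hex
        have h2 : s (Nat.find hex + 1) ≤ s L := s_mono (by omega)
        omega
      · by_contra hcon
        push Not at hcon
        rcases Nat.eq_zero_or_pos (Nat.find hex) with h0' | hpos
        · rw [h0'] at hcon
          have : s 0 ≤ s L := s_mono (by omega)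
          omega
        · have := Nat.find_min hex (m := Nat.find hex - 1) (by omega)
          rw [Nat.sub_add_cancel hpos] at this
          exact this hcon
    have hsub : (Finset.Ioc (s l ^ 2) (s (l + 1)) : Set ℕ) ⊆
        {j : ℕ | dist ((opT 𝕜)^[j] x) ((opT 𝕜)^[j] y) < σ} ∩
          {j : ℕ | 1 ≤ j ∧ (j : ℝ) ≤ (n : ℝ) ^ 3} := by
      intro j hj
      simp only [Finset.coe_Ioc, Set.mem_Ioc] at hj
      refine ⟨?_, by omega, ?_⟩
      · show dist _ _ < σ
        rw [iter_sub]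
        have h1 := small (x - y) hj.1 hj.2
        have h2 := hL l hlL
        simp only [Function.comp] at h2
        linarith
      · have h1 : j ≤ s l ^ 3 := by rw [← s_succ]; exact hj.2
        have h2 : s l ^ 3 ≤ n ^ 3 := Nat.pow_le_pow_left hl1.le 3
        exact_mod_cast h1.trans h2
    have hfin : ({j : ℕ | dist ((opT 𝕜)^[j] x) ((opT 𝕜)^[j] y) < σ} ∩
          {j : ℕ | 1 ≤ j ∧ (j : ℝ) ≤ (n : ℝ) ^ 3}).Finite := by
      refine (Set.finite_Iic (n ^ 3)).subset ?_
      rintro j ⟨_, _, hj⟩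
      show j ≤ n ^ 3
      exact_mod_cast hj
    have hcard := Set.ncard_le_ncard hsub hfin
    rw [Set.ncard_coe_finset, Nat.card_Ioc] at hcard
    have h5 : n ≤ 2 * (s (l + 1) - s l ^ 2) := by
      have h6 : 2 * s l ^ 2 ≤ s (l + 1) := by
        rw [s_succ]
        have := two_le_s l
        nlinarith [sq_nonneg (s l)]
      omega
    have h7 : n ≤ 2 * ({j : ℕ | dist ((opT 𝕜)^[j] x) ((opT 𝕜)^[j] y) < σ} ∩
          {j : ℕ | 1 ≤ j ∧ (j : ℝ) ≤ (n : ℝ) ^ 3}).ncard := h5.trans (by omega)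
    have hn0 : (n : ℝ≥0∞) ≠ 0 := by
      have : 0 < n := by omega
      exact_mod_cast this.ne'
    rw [ENNReal.le_div_iff_mul_le (Or.inl hn0) (Or.inl (by simp))]
    rw [ENNReal.inv_mul_le_iff (by norm_num) (by norm_num)]
    exact_mod_cast h7
  rw [h0] at hge
  simp at hge

/-- a dense linear subspace of vectors with finite orbits -/
lemma dense_null : ∃ X₀ : Submodule 𝕜 (L1 𝕜), Dense (X₀ : Set (L1 𝕜)) ∧
    ∀ x ∈ X₀, Tendsto (fun n => (opT 𝕜)^[n] x) atTop (𝓝 0) := by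
  refine ⟨Submodule.span 𝕜 (Set.range fun q : (ℕ × ℕ) × 𝕜 => lp.single 1 q.1 q.2), ?_, ?_⟩
  · intro x
    have h := lp.hasSum_single (E := fun _ : ℕ × ℕ => 𝕜) (p := 1) (by norm_num) x
    refine mem_closure_of_tendsto h (Eventually.of_forall fun F => ?_)
    refine Submodule.sum_mem _ fun i _ => Submodule.subset_span ⟨(i, x i), rfl⟩
  · intro x hx
    induction hx using Submodule.span_induction with
    | mem x hx =>
      obtain ⟨⟨q, c⟩, rfl⟩ := hx
      refine tendsto_const_nhds.congr' ?_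
      filter_upwards [eventually_gt_atTop q.2] with n hn
      obtain ⟨i, rfl⟩ : ∃ i, n = i + 1 := ⟨n - 1, by omega⟩
      ext p
      rw [opT_iter]
      have hne : up (i + 1) p ≠ q := by
        intro h
        have : p.2 + (i + 1) = q.2 := congrArg Prod.snd h
        omega
      simp only
      rw [lp.single_apply_ne (E := fun _ : ℕ × ℕ => 𝕜) 1 q c hne]
      simp
    | zero =>
      have : ∀ n, (opT 𝕜)^[n] (0 : L1 𝕜) = 0 := fun n => by
        rw [← FunLike.coe_pow_eq_iterate, map_zero]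
      simp [this]
    | add x y _ _ hx hy =>
      have : ∀ n, (opT 𝕜)^[n] (x + y) = (opT 𝕜)^[n] x + (opT 𝕜)^[n] y := fun n => by
        rw [← FunLike.coe_pow_eq_iterate, map_add]
      simp only [this]
      simpa using hx.add hy
    | smul c x _ hx =>
      have : ∀ n, (opT 𝕜)^[n] (c • x) = c • (opT 𝕜)^[n] x := fun n => by
        rw [← FunLike.coe_pow_eq_iterate, map_smul]
      simp only [this]
      simpa using hx.const_smul c

lemma classR_cube : ClassR fun n => (n : ℝ) ^ 3 := by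
  refine ⟨fun n hn => ?_, fun n k hn hk => ?_, ?_⟩
  · exact one_le_pow₀ (by exact_mod_cast hn)
  · have : (n : ℝ) < k := by exact_mod_cast hk
    exact pow_lt_pow_left₀ this (Nat.cast_nonneg n) (by norm_num)
  · have hge : (1 : ℝ≥0∞) ≤ liminf
        (fun n : ℕ => ENNReal.ofReal ((n : ℝ) ^ 3) / (n : ℝ≥0∞)) atTop := by
      refine Filter.le_liminf_of_le (by isBoundedDefault) ?_
      filter_upwards [eventually_ge_atTop 1] with n hn
      have hn0 : (n : ℝ≥0∞) ≠ 0 := by exact_mod_cast (by omega : n ≠ 0)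
      rw [ENNReal.le_div_iff_mul_le (Or.inl hn0) (Or.inl (by simp)), one_mul,
        ← ENNReal.ofReal_natCast n]
      apply ENNReal.ofReal_le_ofReal
      have h1 : (1 : ℝ) ≤ n := by exact_mod_cast hn
      nlinarith [mul_nonneg (sub_nonneg.2 h1) (sub_nonneg.2 h1), sq_nonneg (n : ℝ)]
    exact lt_of_lt_of_le one_pos hge

end basic

/-- **Distributional chaos does not imply `m n`-distributional chaos under dense null orbits.**
Over the real and over the complex numbers there is a bounded operator `T` on a Banach space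
(namely `ℓ¹`), with a dense linear subspace of vectors whose orbits tend to zero, which is
distributionally chaotic but not `n ^ 3`-distributionally chaotic; the sequence `n ^ 3` is in the
class `R`. -/
theorem result (𝕜 : Type) [RCLike 𝕜] :
    ∃ (X : Type) (_ : NormedAddCommGroup X) (_ : NormedSpace 𝕜 X) (_ : CompleteSpace X)
      (T : X →L[𝕜] X), DenseNullOrbits T ∧ MnChaotic (fun n => (n : ℝ)) T ∧
      ClassR (fun n => (n : ℝ) ^ 3) ∧ ¬ MnChaotic (fun n => (n : ℝ) ^ 3) T :=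
  ⟨L1 𝕜, inferInstance, inferInstance, inferInstance, opT 𝕜, dense_null, chaotic, classR_cube,
    not_chaotic⟩

end Pool.Agent.Results.MP_890ea4_an.SlowBlocks
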